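import Pool.Agent.H13.DEV.Targets
import Pool.Agent.H34.N6.LibC
import Pool.Agent.H23.N6.Hens

/-!
# Block E: the bad place
-/

set_option autoImplicit false

open Polynomial NumberField IsDedekindDomain Pool.Agent.H32.QC Pool.Agent.H34.N6
  Pool.Agent.H13.DEV

namespace Pool.Agent.H23.N6E

open Pool.Agent.H23.N6 in
/-- a root of a monic integral polynomial is integral -/
theorem root_int {F : Type*} [NormedField F] [IsUltrametricDist F] {P : F[X]} (hP : P.Monic)
    (hi : ∀ i, ‖P.coeff i‖ ≤ 1) {x : F} (hx : eval x P = 0) : ‖x‖ ≤ 1 := by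
  by_contra hcon
  push Not at hcon
  rcases Nat.eq_zero_or_pos P.natDegree with h0 | h0
  · rw [hP.natDegree_eq_zero] at h0
    rw [h0, eval_one] at hx
    exact one_ne_zero hx
  rw [Polynomial.eval_eq_sum_range, Finset.sum_range_succ, hP.coeff_natDegree, one_mul] at hx
  have h1 : x ^ P.natDegree = -∑ i ∈ Finset.range P.natDegree, P.coeff i * x ^ i :=
    (neg_eq_of_add_eq_zero_right hx).symm
  have h2 : ‖∑ i ∈ Finset.range P.natDegree, P.coeff i * x ^ i‖ ≤ ‖x‖ ^ (P.natDegree - 1) := by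
    apply norm_sum_le_of _ _ (by positivity)
    intro i hi'
    rw [Finset.mem_range] at hi'
    rw [norm_mul, norm_pow]
    calc ‖P.coeff i‖ * ‖x‖ ^ i ≤ 1 * ‖x‖ ^ (P.natDegree - 1) :=
          mul_le_mul (hi i) (pow_le_pow_right₀ hcon.le (by omega)) (by positivity) zero_le_one
      _ = _ := one_mul _
  have h3 : ‖x‖ ^ P.natDegree ≤ ‖x‖ ^ (P.natDegree - 1) := by
    rw [← norm_pow, h1, norm_neg]
    exact h2
  have h4 : ‖x‖ ^ (P.natDegree - 1) < ‖x‖ ^ P.natDegree :=
    pow_lt_pow_right₀ hcon (by omega)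
  exact absurd h3 (not_le.2 h4)

open Pool.Agent.H23.N6 in
/-- values at close points -/
theorem eval_sub_le {F : Type*} [NormedField F] [IsUltrametricDist F] {P : F[X]}
    (hi : ∀ i, ‖P.coeff i‖ ≤ 1) {x y : F} (hx : ‖x‖ ≤ 1) (hy : ‖y‖ ≤ 1) :
    ‖eval x P - eval y P‖ ≤ ‖x - y‖ := by
  have h1 := eval_sub_bound hi (le_refl (1 : ℝ)) hx hy
  have h2 : eval x P - eval y P = (eval x P - eval y P - P.coeff 1 * (x - y)) +
      P.coeff 1 * (x - y) := by ring
  rw [h2]
  refine (IsUltrametricDist.norm_add_le_max _ _).trans (max_le ?_ ?_)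
  · rw [one_mul] at h1
    exact h1
  · rw [norm_mul]
    calc ‖P.coeff 1‖ * ‖x - y‖ ≤ 1 * ‖x - y‖ :=
          mul_le_mul_of_nonneg_right (hi 1) (norm_nonneg _)
      _ = _ := one_mul _

open Pool.Agent.H23.N6 in
/-- at a good place the derivative is a unit at approximate roots -/
theorem deriv_unit {F : Type*} [NormedField F] [IsUltrametricDist F] {P a b : F[X]}
    (hi : ∀ i, ‖P.coeff i‖ ≤ 1) (ha : ∀ i, ‖a.coeff i‖ ≤ 1) (hb : ∀ i, ‖b.coeff i‖ ≤ 1)
    (hab : a * P + b * derivative P = 1) {t : F} (ht : ‖t‖ ≤ 1) (h0 : ‖eval t P‖ < 1) :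
    ‖eval t (derivative P)‖ = 1 := by
  have h1 := congrArg (eval t) hab
  rw [eval_add, eval_mul, eval_mul, eval_one] at h1
  have hd : ∀ i, ‖(derivative P).coeff i‖ ≤ 1 := by
    intro i
    rw [coeff_derivative, norm_mul]
    apply mul_le_one₀ (hi _) (norm_nonneg _)
    have h2 : ((i : F) + 1) = ((i + 1 : ℕ) : F) := by push_cast; ring
    rw [h2]
    exact norm_natCast_le _
  apply le_antisymm (eval_int hd ht)
  by_contra hcon
  push Not at hcon
  have h3 : ‖eval t a * eval t P + eval t b * eval t (derivative P)‖ < 1 := by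
    refine (IsUltrametricDist.norm_add_le_max _ _).trans_lt (max_lt ?_ ?_)
    · rw [norm_mul]
      calc ‖eval t a‖ * ‖eval t P‖ ≤ 1 * ‖eval t P‖ :=
            mul_le_mul_of_nonneg_right (eval_int ha ht) (norm_nonneg _)
        _ < 1 := by rw [one_mul]; exact h0
    · rw [norm_mul]
      calc ‖eval t b‖ * ‖eval t (derivative P)‖ ≤ 1 * ‖eval t (derivative P)‖ :=
            mul_le_mul_of_nonneg_right (eval_int hb ht) (norm_nonneg _)
        _ < 1 := by rw [one_mul]; exact hcon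
  rw [h1, norm_one] at h3
  exact lt_irrefl _ h3

theorem hom_eval_map {k E F : Type*} [Field k] [Field E] [Field F] (i : k →+* E) (h : E →+* F)
    (P : k[X]) (x : E) : h (eval x (P.map i)) = eval (h x) (P.map (h.comp i)) := by
  rw [eval_map, eval_map, Polynomial.hom_eval₂]

theorem pf_BD2 (hHEN : T_HEN) (hHOM : T_HOM) (_hBEL : T_BEL) : T_BD2 := by
  intro k L K _ _ _ _ _ _ _ _ P D e ws N G θ w₀ h hP heP hgood hstar hnsq hθ hcont hh hclose
  have hcomp : h.comp (kc k w₀) = kc k ws := RingHom.ext hh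
  have hev : ∀ (Q : k[X]) (x : w₀.adicCompletion K),
      h (eval x (Q.map (kc k w₀))) = eval (h x) (Q.map (kc k ws)) := by
    intro Q x
    rw [hom_eval_map, hcomp]
  have hL : ∀ Q : k[X], eval (ic ws e) (Q.map (kc k ws)) = ic ws (aeval e Q) := by
    intro Q
    rw [eval_map, aeval_def, Polynomial.hom_eval₂]
  have hK : ∀ Q : k[X], eval (ic w₀ θ) (Q.map (kc k w₀)) = ic w₀ (aeval θ Q) := by
    intro Q
    rw [eval_map, aeval_def, Polynomial.hom_eval₂]
  have hint : ∀ Q : k[X], Int (ws.under (𝓞 k)) Q → ∀ i, ‖(Q.map (kc k ws)).coeff i‖ ≤ 1 :=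
    fun Q hQ i => poly_up hQ i
  have hintE : ∀ Q : k[X], Int (ws.under (𝓞 k)) Q → ∀ i, ‖(Q.map (kc k w₀)).coeff i‖ ≤ 1 := by
    intro Q hQ i
    have h1 := hint Q hQ i
    rw [coeff_map] at h1 ⊢
    rw [← hh] at h1
    exact (hHOM L K ws w₀ h hcont _).1.1 h1
  obtain ⟨a, b, ha, hb, hab⟩ := hgood.sep
  have habF : a.map (kc k ws) * P.map (kc k ws) + b.map (kc k ws) *
      derivative (P.map (kc k ws)) = 1 := by
    rw [Polynomial.derivative_map, ← Polynomial.map_mul, ← Polynomial.map_mul,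
      ← Polynomial.map_add, hab, Polynomial.map_one]
  have habE : a.map (kc k w₀) * P.map (kc k w₀) + b.map (kc k w₀) *
      derivative (P.map (kc k w₀)) = 1 := by
    rw [Polynomial.derivative_map, ← Polynomial.map_mul, ← Polynomial.map_mul,
      ← Polynomial.map_add, hab, Polynomial.map_one]
  set eF := ic ws e with heF
  set tE := ic w₀ θ with htE
  have hPe : eval eF (P.map (kc k ws)) = 0 := by rw [hL, heP, map_zero]
  have heF1 : ‖eF‖ ≤ 1 := root_int (hP.map _) (hint P hgood.intP) hPe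
  have ht1 : ‖h tE‖ ≤ 1 := by
    have h1 : h tE = (h tE - eF) + eF := by ring
    rw [h1]
    exact (IsUltrametricDist.norm_add_le_max _ _).trans (max_le hclose.le heF1)
  have hPt : ‖eval (h tE) (P.map (kc k ws))‖ < 1 := by
    have h1 := eval_sub_le (hint P hgood.intP) ht1 heF1
    rw [hPe, sub_zero] at h1
    exact h1.trans_lt hclose
  have hdt := deriv_unit (hint P hgood.intP) (hint a ha) (hint b hb) habF ht1 hPt
  have htE1 : ‖tE‖ ≤ 1 := (hHOM L K ws w₀ h hcont _).1.1 ht1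
  have hPtE : ‖eval tE (P.map (kc k w₀))‖ < 1 := by
    rw [← hev] at hPt
    exact (hHOM L K ws w₀ h hcont _).2.1 hPt
  have hdtE := deriv_unit (hintE P hgood.intP) (hintE a ha) (hintE b hb) habE htE1 hPtE
  obtain ⟨e', he', hclose', -⟩ := hHEN (w₀.adicCompletion K) (P.map (kc k w₀)) tE
    (hintE P hgood.intP) htE1 hPtE hdtE
  obtain ⟨b0, -, -, huniq⟩ := hHEN (ws.adicCompletion L) (P.map (kc k ws)) (h tE)
    (hint P hgood.intP) ht1 hPt hdt
  have hsubn : ‖h e' - h tE‖ < 1 := by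
    rw [← map_sub]
    exact (hHOM L K ws w₀ h hcont _).2.2 hclose'
  have hhe : h e' = eF := by
    have h1 := huniq (h e') (by rw [← hev, he', map_zero]) hsubn
    have h2 := huniq eF hPe (by rw [norm_sub_rev]; exact hclose)
    rw [h1, h2]
  have hGt : eval (h tE) (G.map (kc k ws)) = 0 := by
    rw [← hev, hK, hθ, map_zero, map_zero]
  have hGe : ‖ic ws (aeval e G)‖ ≤ ‖h (e' - tE)‖ := by
    have h1 := eval_sub_le (hint G hstar.int) heF1 ht1
    rw [hGt, sub_zero, hL] at h1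
    rw [map_sub, hhe]
    exact h1
  refine ⟨e', ?_, hclose', ?_, ?_⟩
  · rw [← eval_map]
    exact he'
  · intro x hx
    by_contra hcon
    push Not at hcon
    have hxpos : 0 < ‖x‖ := (norm_nonneg _).trans_lt hcon
    have hx0 : x ≠ 0 := norm_pos_iff.1 hxpos
    have h1 : ‖(e' - tE) / x‖ < 1 := by
      rw [norm_div, div_lt_one hxpos]
      exact hcon
    have h2 := (hHOM L K ws w₀ h hcont _).2.2 h1
    have hhx : 0 < ‖h x‖ := norm_pos_iff.2 ((map_ne_zero h).2 hx0)
    rw [map_div₀, norm_div, div_lt_one hhx] at h2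
    have h3 := hstar.mx (h x) ((hHOM L K ws w₀ h hcont _).2.2 hx)
    exact absurd (h3.trans hGe) (not_le.2 h2)
  · rintro ⟨r, hr⟩
    apply hnsq
    refine ⟨h r, ?_⟩
    rw [← map_mul, ← hr, ← hL, ← hhe, ← hev, eval_map]

end Pool.Agent.H23.N6E
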