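import Pool.Agent.H23.N6E.EBD2

/-!
# Block E: the coefficients are integral at good places
-/

set_option autoImplicit false

open Polynomial NumberField IsDedekindDomain Pool.Agent.H32.QC Pool.Agent.H34.N6
  Pool.Agent.H13.DEV

namespace Pool.Agent.H23.N6E

section

variable {k L : Type} [Field k] [NumberField k] [Field L] [NumberField L] [Algebra k L]

theorem gen_adjoin {P : k[X]} {e : L} (hG : Gen P e) : Algebra.adjoin k {e} = ⊤ := by
  have h1 : IsAlgebraic k e := by
    haveI : FiniteDimensional k L := by
      haveI : IsScalarTower ℚ k L := inferInstance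
      exact FiniteDimensional.right ℚ k L
    exact Algebra.IsAlgebraic.isAlgebraic e
  rw [← IntermediateField.adjoin_simple_toSubalgebra_of_isAlgebraic h1, hG.adj,
    IntermediateField.top_toSubalgebra]

theorem int_quot {P D : k[X]} {e : L} (w : FPl L) (hP : P.Monic) (hG : Gen P e)
    (hgood : GoodAt P D (w.under (𝓞 k))) (i : ℕ) :
    ‖ic w ((minpolyDiv k e).coeff i / aeval e (derivative (minpoly k e)))‖ ≤ 1 := by
  have hL : ∀ Q : k[X], eval (ic w e) (Q.map (kc k w)) = ic w (aeval e Q) := by
    intro Q
    rw [eval_map, aeval_def, Polynomial.hom_eval₂]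
  have heP : aeval e P = 0 := by
    rw [← hG.mp]
    exact minpoly.aeval k e
  have hPe : eval (ic w e) (P.map (kc k w)) = 0 := by rw [hL, heP, map_zero]
  have he1 : ‖ic w e‖ ≤ 1 := root_int (hP.map _) (fun i => poly_up hgood.intP i) hPe
  obtain ⟨a, b, ha, hb, hab⟩ := hgood.sep
  have habF : a.map (kc k w) * P.map (kc k w) + b.map (kc k w) *
      derivative (P.map (kc k w)) = 1 := by
    rw [Polynomial.derivative_map, ← Polynomial.map_mul, ← Polynomial.map_mul,
      ← Polynomial.map_add, hab, Polynomial.map_one]
  have hder : ‖ic w (aeval e (derivative P))‖ = 1 := by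
    have h1 := deriv_unit (fun i => poly_up hgood.intP i) (fun i => poly_up ha i)
      (fun i => poly_up hb i) habF he1 (by rw [hPe, norm_zero]; exact zero_lt_one)
    rw [Polynomial.derivative_map, hL] at h1
    exact h1
  have hco : ∀ n i : ℕ, (minpolyDiv k e).natDegree < i + n →
      ‖ic w ((minpolyDiv k e).coeff i)‖ ≤ 1 := by
    intro n
    induction n with
    | zero =>
      intro i hi
      rw [Polynomial.coeff_eq_zero_of_natDegree_lt (by simpa using hi), map_zero, norm_zero]
      exact zero_le_one
    | succ n ih =>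
      intro i hi
      rw [coeff_minpolyDiv, map_add, map_mul]
      refine (IsUltrametricDist.norm_add_le_max _ _).trans (max_le ?_ ?_)
      · rw [hG.mp]
        exact norm_up_le w _ (hgood.intP (i + 1))
      · rw [norm_mul]
        exact mul_le_one₀ (ih (i + 1) (by omega)) (norm_nonneg _) he1
  rw [map_div₀, norm_div, hG.mp, hder, div_one]
  exact hco ((minpolyDiv k e).natDegree + 1) i (by omega)

end

theorem pf_CFI (hTRI : T_TRI) (_hBEL : T_BEL) : T_CFI := by
  intro k L _ _ _ _ _ P D e v hG hgood Q hdeg hint i
  haveI : FiniteDimensional k L := by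
    haveI : IsScalarTower ℚ k L := inferInstance
    exact FiniteDimensional.right ℚ k L
  have hei : IsIntegral k e := Algebra.IsIntegral.isIntegral e
  have hP : P.Monic := by
    rw [← hG.mp]
    exact minpoly.monic hei
  set pb := PowerBasis.ofAdjoinEqTop' hei (gen_adjoin hG) with hpb
  have hgen : pb.gen = e := PowerBasis.ofAdjoinEqTop'_gen hei (gen_adjoin hG)
  have hdim : pb.dim = P.natDegree := by
    rw [hpb, PowerBasis.ofAdjoinEqTop'_dim, hG.mp]
  rcases lt_or_ge i pb.dim with hi | hi
  · have h1 : aeval e Q = ∑ j : Fin pb.dim, Q.coeff j • pb.basis j := by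
      rw [Polynomial.aeval_eq_sum_range' (n := pb.dim), Finset.sum_range]
      · apply Finset.sum_congr rfl
        intro j _
        rw [PowerBasis.coe_basis, hgen]
      · rw [hdim]
        rcases eq_or_ne Q 0 with h0 | h0
        · rw [h0, natDegree_zero]
          rw [← hdim]
          exact (Nat.zero_le _).trans_lt hi
        · exact Polynomial.natDegree_lt_natDegree h0 hdeg
    have h2 : Algebra.trace k L (aeval e Q * pb.basis.traceDual ⟨i, hi⟩) = Q.coeff i := by
      rw [h1, Finset.sum_mul, map_sum]
      simp only [smul_mul_assoc, map_smul, Module.Basis.trace_mul_traceDual, smul_eq_mul,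
        mul_ite, mul_one, mul_zero, Finset.sum_ite_eq', Finset.mem_univ, if_true]
    rw [← h2]
    apply hTRI k L v
    intro w hw
    rw [map_mul, norm_mul]
    apply mul_le_one₀ (hint w hw) (norm_nonneg _)
    rw [Module.Basis.traceDual_powerBasis_eq, hgen]
    apply int_quot w hP hG
    rw [hw]
    exact hgood
  · rw [Polynomial.coeff_eq_zero_of_degree_lt, map_zero, norm_zero]
    · exact zero_le_one
    · apply hdeg.trans_le
      rw [Polynomial.degree_eq_natDegree hP.ne_zero, ← hdim]
      exact_mod_cast hi

end Pool.Agent.H23.N6E
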