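import Pool.Agent.H13.DEV.Targets
import Pool.Agent.H23.N6.Hens

/-!
# Block E: Hensel's lemma
-/

set_option autoImplicit false

open Polynomial NumberField IsDedekindDomain Pool.Agent.H32.QC Pool.Agent.H34.N6
  Pool.Agent.H13.DEV

namespace Pool.Agent.H23.N6E

theorem pf_HEN : T_HEN := by
  intro F _ _ _ G a hG ha h0 h1
  obtain ⟨b, hb, hba⟩ := Pool.Agent.H23.N6.hensel_root hG ha h0 h1
  have hba' : ‖b - a‖ < 1 := hba.trans_lt h0
  refine ⟨b, hb, hba', ?_⟩
  intro b' hb' hba2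
  by_contra hne
  set Q := taylor a G with hQ
  have hQi : ∀ i, ‖Q.coeff i‖ ≤ 1 := Pool.Agent.H23.N6.taylor_int hG ha
  have hc1 : ‖Q.coeff 1‖ = 1 := by
    rw [hQ, Polynomial.taylor_coeff_one]
    exact h1
  set r := max ‖b - a‖ ‖b' - a‖ with hr
  have hr1 : r < 1 := max_lt hba' hba2
  have h5 := Pool.Agent.H23.N6.eval_sub_bound hQi hr1.le (le_max_left ‖b - a‖ ‖b' - a‖)
    (le_max_right ‖b - a‖ ‖b' - a‖)
  have e1 : eval (b - a) Q = 0 := by
    rw [hQ, Polynomial.taylor_eval, sub_add_cancel]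
    exact hb
  have e2 : eval (b' - a) Q = 0 := by
    rw [hQ, Polynomial.taylor_eval, sub_add_cancel]
    exact hb'
  rw [e1, e2, sub_zero, zero_sub, norm_neg, norm_mul, hc1, one_mul] at h5
  have h6 : 0 < ‖b - a - (b' - a)‖ := by
    rw [norm_pos_iff]
    intro h
    apply hne
    have h7 : b - b' = 0 := by
      rw [← h]
      ring
    exact (sub_eq_zero.1 h7).symm
  have h8 : r * ‖b - a - (b' - a)‖ < 1 * ‖b - a - (b' - a)‖ := mul_lt_mul_of_pos_right hr1 h6
  rw [one_mul] at h8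
  exact absurd h5 (not_le.2 h8)

end Pool.Agent.H23.N6E
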